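import Mathlib
import Pool.Agent.Q64.M.Sing
import Pool.Agent.Q64.L.InstC

/-!
# The Tate conjectures for the products of arbitrary singular varieties over finitely generated
fields with the abelian varieties of almost all slope types of all CM fields over finite fields

Let `K i` (`i` in a finite set) be CM fields of degree `2 g i`. Nothing is assumed about their
Galois groups. They are pairwise independent: for `i ≠ k` and all complex embeddings `φ` of `K i`
and `ψ` of `K k` some automorphism of `ℂ` is the identity on `φ (K i)` and the complex conjugation
on `ψ (K k)` (this is no condition if there is only one field). We fix an isomorphism `ν` of the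
algebraic closure of `ℚ_p` with `ℂ`; it defines a `p`-adic valuation of `ℂ`, with the value one at
`p`. Let `M i` be a function with nonzero integral values, all of which divide `n i`, on the
complex embeddings of `K i`, invariant under complex conjugation. A CM type `Φ i` of `K i` (a
choice of one element out of each complex conjugate pair of embeddings; there are `2 ^ (g i)`
types), `M i` and a real number `κ ≠ 0` prescribe the slopes `(a + κ M) / 2` (at the embeddings in
`Φ i`) and `(a - κ M) / 2` (outside of `Φ i`) of a Weil number for `p ^ a` in `K i` (`HasType`).
The case `M = 1`, `κ = a` is the case of ordinary abelian varieties; the assumption on `M` says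
that `a / 2` is not a slope.

There are `2 ^ (∑ i, g i)` families of CM types `Φ i` of the fields `K i`. A family is exceptional
(`exceptionalFamilies ν K M`) if the following statement (`Holds`) is false for it. Let `π i` be
Weil numbers for `q = p ^ a` that generate the fields `K i` and have the slope types `Φ i`, `M i`,
and let `f i` be monic polynomials whose complex roots are conjugates of `π i` (`IsPolyOf`), for
instance the characteristic polynomials of Frobenius of the abelian varieties in the isogeny
classes of the `π i` over the field with `q` elements. Let `A` be an abelian variety over the field
with `Q = q ^ s` elements which is isogenous to a product of powers of abelian varieties coming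
from the field with `q` elements, with characteristic polynomials `f i`. Let `k` be a finitely
generated field which contains the field with `Q` elements, and let `X` be **any** variety over `k`
(a separated scheme of finite type; it may be singular, reducible and not proper). Suppose that
there is a variety over the field with `Q` elements with the function field `k`, and a point of it
with `Q` elements in the residue field, in the open set over which the `ℓ`-adic homology of the
fibres of a model of `X` is lisse, such that the eigenvalues `ρ` of the Frobenius element of this
**one** point on the `ℓ`-adic homology of `X` and their conjugates are unrelated to the fields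
`K i` (`UnrelatedTo`): a function `n` on the complex embeddings of `K i` with `n (conj φ) = - n φ`
which is invariant under all automorphisms of `ℂ` that fix a power of `ρ` is zero. This is so if
for each embedding `ψ` of `K i` some automorphism which fixes a power of `ρ` is the complex
conjugation on `ψ (K i)`: for instance, if a power of `ρ` lies in a field linearly disjoint from
the normal closures of the `K i`, or in a totally real field. It is also so if the degree of `ρ` is
less than twice the dimension of each nonzero space of functions `n` stable under all automorphisms
of `ℂ`.

**For every `b` statement (a) of Q1 is true for `A × X` in dimension `b` (the map from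
`CH_b(A × X) ⊗ ℚ_ℓ` to the space of the invariants of the Galois group of `k` in `H_(2 b)(b)` is
onto) if and only if it is true for `X` in all the dimensions `b - l`, `0 ≤ l ≤ dim A`. The same
holds for statement (b)** (`B_b` is finitely generated, and `B_b ⊗ ℚ_ℓ` is isomorphic to the space
of the Galois invariants). No resolution of singularities, no good proper cover and no case of the
conjectures is assumed.

The theorems of Jannsen which are known reduce the statements for `X` to statements for smooth
projective varieties, the products `X'' × X''` among them, and need good proper covers in
characteristic `p`. Here both sides of the equivalence are about singular and open varieties, and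
the products `A × X` are reduced to `X`.

What is used of `A` are known theorems (`IsAbelian`): `H(A)` is generated by `H^1`, Frobenius is
diagonalizable on `H^1` (Weil), the theorem of Tate on divisors, and the nilpotence of
homologically trivial correspondences (Kimura). The `ℓ`-adic homology `R` of `X` and `A × X` over
an algebraic closure of `k` is modelled by `RelData`, with the formal properties in `IsRel`:
degrees, products with classes on `A`, push-forward to `X`, the projection formula, the operation
of the correspondences of `A`. The group of bidegree `(i, j)` of `X` is `H_(-i)(X, -j)`, and the
group of bidegree `(i, j)` of `A × X` is `H_(2 d - i)(A × X, d - j)`, `d = dim A`. `frobN` and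
`frobM` are the operations of the Frobenius element on `H(X)`, and `InvN`, `InvM` are the elements
on which the Frobenius element acts through the Tate twist. `L` is the coefficient field.
`IsClassData` collects the properties of the classes of cycles (as subgroups of the homology with
coefficients in `ℚ_ℓ`; the torsion in the homology with coefficients in `ℤ_ℓ` is finite) and of the
Galois invariants: products with classes on `A` and push-forwards of classes of cycles (up to a
common denominator) are classes of cycles, the same for Galois invariants, as the classes on `A`
are defined over the finite field.

The theorem bounds the number of the exceptional families: it is at most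
`2 ^ (∑ i, g i) * ∑ i, C * (n i) ^ 2 * (1 + log (2 g i)) ^ 16 * min (N ^ 2 * D ^ (1 / 4) / √g, √g / q)`
with an absolute constant `C`. Here, for `K = K i` and `g = g i`, `N` is the number of the CM
subfields of `K` (with `K`), `D = D i ≥ 1` is a bound for the degrees of the CM subfields of `K`
that are normal over `ℚ` with a nonabelian Galois group, and `q = q i` is any prime factor of `g`
(or `q = 1`). So the exceptional types are a proportion `O (n ^ 2 * g ^ (-1 / 4) * (log g) ^ 16)`
of all types of all CM fields with a bounded number of CM subfields,
`O (n ^ 2 * g ^ (-1 / 2) * (log g) ^ 16)` if the normal nonabelian ones have bounded degrees, and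
`O (n ^ 2 * g ^ (-δ) * (log g) ^ 16)` for all CM fields, with any number of subfields, whose degree
is divisible by a prime number `q ≥ g ^ (1 / 2 + δ)`. Some assumption is necessary: almost all
types of a multiquadratic CM field are degenerate. The counting part (the bound for the number of
the degenerate types) is the one of `AllCMFields` (MP_e12fcd_ag), by helper1 and others of this
team.

The proof. Suppose that the product of `ρ` and of some eigenvalues `φ (π i)` of `A`, no two of them
complex conjugate, is a power of `q`, up to a root of unity. For an automorphism `σ` of `ℂ` the
`p`-adic valuations of the images under `σ` give a linear relation between the signed weights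
`± M i (σ φ)` whose right side is a function of the valuation of `σ ρ`. It does not change if `σ`
is multiplied by an automorphism `τ` which fixes a power of `ρ`. The difference of the two
relations is homogeneous; if the types are not degenerate it is trivial, so that the differences of
the exponents of complex conjugate embeddings are invariant under `τ`. So they are zero, as `ρ` is
unrelated to the fields `K i`. It follows that, on the generalized eigenspace of Frobenius for the
power of `Q` in question in the cohomology or homology of the product of `A` with the other factor,
the correspondence on `A` given by the sum of the products of dual classes of products of divisors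
acts as the identity: the Frobenius endomorphism of `A` satisfies there a power of the polynomial
reciprocal to that of the Frobenius on the other factor, this polynomial is prime to the one whose
value on `H(A)` lies in the part generated by divisors, and the difference of the two
correspondences is nilpotent. So the Galois invariants of `A × X`, and the classes of cycles (up to
a common denominator), are the direct sums of the products of finitely many products of divisors on
`A` with those of `X`.
-/

set_option autoImplicit false

namespace Pool.Agent.Results.MP_4776b1_ag.AllCMTypesTimesAny

open NumberField Module Pool.Agent.H204R3.CM Pool.Agent.H977R3.CM Pool.Agent.TH170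
  Pool.Agent.Y1.KN Pool.Agent.Y1.CT Pool.Agent.Q64.L Pool.Agent.Q64.M

/-- The statement `SingularTateReduces` holds for all abelian varieties `A` whose Frobenius
eigenvalues are powers of conjugates of Weil numbers with the slope types `Φ i`, `M i`, and all
varieties over finitely generated fields unrelated to the fields `K i`. -/
def Holds {p : ℕ} [Fact p.Prime] (ν : PadicAlgCl p ≃+* ℂ) {I : Type} (K : I → Type)
    [∀ i, Field (K i)] [∀ i, NumberField (K i)] [∀ i, IsCMField (K i)]
    (M : ∀ i, (K i →+* ℂ) → ℤ) (Φ : ∀ i, Set (K i →+* ℂ)) : Prop :=
  ForAllTypes ν K M (fun q f => SingularTateReduces (UnrelatedRoots K) q f) Φ

/-- The exceptional families of CM types. -/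
def exceptionalFamilies {p : ℕ} [Fact p.Prime] (ν : PadicAlgCl p ≃+* ℂ) {I : Type} (K : I → Type)
    [∀ i, Field (K i)] [∀ i, NumberField (K i)] [∀ i, IsCMField (K i)]
    (M : ∀ i, (K i →+* ℂ) → ℤ) : Set (∀ i, Set (K i →+* ℂ)) :=
  {Φ | (∀ i, IsCMType (Φ i)) ∧ ¬ Holds ν K M Φ}

/-- **The Tate conjectures (a) and (b) hold for `A × X` if and only if they hold for `X`, for the
abelian varieties `A` of almost all slope types of all CM fields and all unrelated varieties over
finitely generated fields.** -/
theorem result :
    ∃ C : ℝ, 0 ≤ C ∧ ∀ (p : ℕ) [Fact p.Prime] (ν : PadicAlgCl p ≃+* ℂ) (I : Type) [Fintype I]
      (K : I → Type) [∀ i, Field (K i)] [∀ i, NumberField (K i)] [∀ i, IsCMField (K i)]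
      (M : ∀ i, (K i →+* ℂ) → ℤ) (n g q : I → ℕ) (D : I → ℝ), PairwiseIndep K →
      (∀ i φ, M i (ComplexEmbedding.conjugate φ) = M i φ) → (∀ i, n i ≠ 0) →
      (∀ i φ, M i φ ∣ (n i : ℤ)) → (∀ i, finrank ℚ (K i) = 2 * g i) →
      (∀ i, q i ∣ g i ∧ (q i = 1 ∨ (q i).Prime)) → (∀ i, 1 ≤ D i) →
      (∀ (i : I) (L : IntermediateField ℚ (K i)), IsCMField L → IsGalois ℚ L →
        ¬ IsAbelianGalois ℚ L → (finrank ℚ L : ℝ) ≤ D i) →
      ((exceptionalFamilies ν K M).ncard : ℝ) ≤
        2 ^ (∑ i, g i) * ∑ i, C * (n i : ℝ) ^ 2 * ((1 + Real.log (2 * g i)) ^ 16 *
          min ((numCMSubfields (K i) : ℝ) ^ 2 * D i ^ (1 / 4 : ℝ) / √(g i)) (√(g i) / q i)) := by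
  obtain ⟨C, hC0, hC⟩ := countC
  refine ⟨C, hC0, ?_⟩
  intro p _ ν I _ K _ _ _ M n g q D hind hM hn hMn hg hq hD hDF
  exact hC p ν I K M n g q D hind hM hn hMn hg hq hD hDF _
    fun Q f hQ hG => singularTateReduces hQ hG

end Pool.Agent.Results.MP_4776b1_ag.AllCMTypesTimesAny
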