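import Mathlib
import Pool.Agent.Q64.M.Sing
import Pool.Agent.Q64.L.InstA

/-!
# Poles of the L-functions of the products of arbitrary singular varieties over finitely generated
fields with almost all abelian varieties over finite fields

Let `g i` (`i` in a finite set `I`) be positive integers, `r` an integer smaller than all the `g i`
and `E` a number field.  For a prime power `q` let `S i` be the set of the characteristic
polynomials of Frobenius of the ordinary abelian varieties of dimension `g i` over the field with
`q` elements, or of all abelian varieties of dimension `g i`, or any set in between.  By Weil,
Honda and Tate its elements correspond to the isogeny classes, the first set contains
`ordinaryWeilPolys q (g i)`, and the second one is contained in `weilPolys q (g i)`.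

For almost all families `f i` in `S i` (`AlmostAll`: with the exception of a proportion
`O (q ^ (-1 / 6) log q)`, the constant depending only on `g`, `r` and `E`) the following holds for
all `s > 0`, `Q = q ^ s`, and all abelian varieties `A` over the field with `Q` elements which are
isogenous to products of powers of abelian varieties coming from the field with `q` elements, with
characteristic polynomials `f i`. Let `U` be a smooth geometrically connected variety over the
field with `Q` elements, `k` its function field, and let `X` be **any** variety over `k` (a
separated scheme of finite type; it may be singular, reducible and not proper) which extends to a
scheme over `U` whose `ℓ`-adic homology sheaves are lisse (for a small `U` this is always so), such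
that the eigenvalues of the Frobenius (relative to the field with `Q` elements) on the invariants
of the geometric fundamental group of `U` in the `ℓ`-adic homology of `X` and their conjugates
generate a group of rank at most `r` modulo the group of the numbers with a power in `E` (for
`r = 0`: they have powers in `E`).

**For every integer `n` the following are equivalent: the formula
`ord L(A × X, s) = - rank B_b(A × X)` at `s = b + dim_a(k)` is true for all `b ≥ n + dim A`; the
formula `ord L(X, s) = - rank B_b(X)` at `s = b + dim_a(k)` is true for all `b ≥ n`**
(`PoleFormulaM`, `PoleFormulaN`; the finiteness of the rank is a part of the statement). In
particular Q2 is true for `A × X` in all dimensions if and only if it is true for `X` in all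
dimensions.

By the trace formula of Grothendieck and the theorem of Deligne on weights the order of the pole of
`L(X, s)` at `s = b + dim_a(k)` is the multiplicity of the eigenvalue `Q ^ (b + dim U)` of
Frobenius on the highest cohomology group with compact supports of `U` with coefficients in the
sheaf with the stalks `H_c ^ (2 b)(X)`; by duality this is the multiplicity of the eigenvalue
`Q ^ (-b)` on the invariants of the geometric fundamental group of `U` in `H_(2 b)(X, ℚ_ℓ)`. This
multiplicity (`multN`, `multM`) is used in the formal statement.

Since there are no inequalities between the rank of `B_b` and the order of the pole which are known
for all `X`, the equivalence for a single `b` is not formal: it is proved for all `b` above a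
bound, by induction from the top.

What is used of `A` are known theorems (`IsAbelian`): `H(A)` is generated by `H^1`, Frobenius is
diagonalizable on `H^1` (Weil), the theorem of Tate on divisors, and the nilpotence of
homologically trivial correspondences (Kimura). The theories `T` (classes of cycles in the `ℓ`-adic
homology, with rational coefficients) and `R` (invariants of the geometric fundamental group of `U`
in the `ℓ`-adic homology) of `X` and `A × X` are modelled by `RelData`, with the formal properties
in `IsTheory`: degrees, products with classes on `A` (they are invariant), push-forward to `X`, the
projection formula, the operation of the correspondences of `A`. The group of bidegree `(i, j)` of
`X` is `H_(-i)(X, -j)`, and the group of bidegree `(i, j)` of `A × X` is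
`H_(2 d - i)(A × X, d - j)`, `d = dim A`. `frobN` and `frobM` are the operations of the Frobenius
of `X`; the classes of cycles of bidegree `(2 j, j)` are multiplied by `Q ^ j` (`IsPure`).
`FiniteEig`, `IsLinear` (the operations are `L`-linear, `L` the coefficient field) and
`BoundedDimension` are standard.

The proof: by a sieve (helper521), which only uses the primes that split completely in the Galois
closure of `E` - these have positive density by the theorem of Chebotarev, formalized by helper401
- almost all families are such that each pair `α`, `q / α` of roots can be exchanged by a Galois
automorphism which fixes all the other roots of all the `f i` and also all elements of `E`. It
follows that, on the generalized eigenspace of Frobenius for the power of `Q` in question in the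
cohomology or homology of the product of `A` with the other factor, the correspondence on `A` given
by the sum of the products of dual classes of products of divisors acts as the identity: the
Frobenius endomorphism of `A` satisfies there a power of the polynomial reciprocal to that of the
Frobenius on the other factor, this polynomial is prime to the one whose value on `H(A)` lies in
the part generated by divisors, and the difference of the two correspondences is nilpotent. So the
classes of cycles on `A × X` and the generalized eigenspaces for `A × X` are the direct sums of the
products of finitely many products of divisors on `A` with those of `X`.
-/

set_option autoImplicit false

namespace Pool.Agent.Results.MP_4776b1_ag.AlmostAllPoleOrder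

open Pool.Agent.Y156.L Pool.Agent.Q64.L Pool.Agent.Q64.M

/-- **The formula for the order of the pole holds for `A × X` if and only if it holds for `X`, for
almost all abelian varieties `A` and all varieties over finitely generated fields of small
Frobenius rank.** -/
theorem result {I : Type} [Fintype I] (g : I → ℕ) (r : ℕ) (hr : ∀ i, r < g i)
    (E : IntermediateField ℚ ℂ) [FiniteDimensional ℚ E] :
    AlmostAll g fun q F => PoleReduces (RootsRank E r) q F :=
  countA g r hr E (fun q F => PoleReduces (RootsRank E r) q F) fun _ _ hq hG => poleReduces hq hG

end Pool.Agent.Results.MP_4776b1_ag.AlmostAllPoleOrder
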