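import Mathlib
import Pool.Agent.Q64.M.Sing
import Pool.Agent.Q64.L.InstA

/-!
# The Tate conjectures for the products of arbitrary singular varieties over finitely generated
fields with almost all abelian varieties over finite fields

Let `g i` (`i` in a finite set `I`) be positive integers, `r` an integer smaller than all the `g i`
and `E` a number field.  For a prime power `q` let `S i` be the set of the characteristic
polynomials of Frobenius of the ordinary abelian varieties of dimension `g i` over the field with
`q` elements, or of all abelian varieties of dimension `g i`, or any set in between.  By Weil,
Honda and Tate its elements correspond to the isogeny classes, the first set contains
`ordinaryWeilPolys q (g i)`, and the second one is contained in `weilPolys q (g i)`.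

For almost all families `f i` in `S i` (`AlmostAll`: with the exception of a proportion
`O (q ^ (-1 / 6) log q)`, the constant depending only on `g`, `r` and `E`) the following holds for
all `s > 0`, `Q = q ^ s`, and all abelian varieties `A` over the field with `Q` elements which are
isogenous to products of powers of abelian varieties coming from the field with `q` elements, with
characteristic polynomials `f i`. Let `k` be a finitely generated field which contains the field
with `Q` elements, and let `X` be **any** variety over `k` (a separated scheme of finite type; it
may be singular, reducible and not proper). Suppose that there is a variety over the field with `Q`
elements with the function field `k`, and a point of it with `Q` elements in the residue field, in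
the open set over which the `ℓ`-adic homology of the fibres of a model of `X` is lisse, such that
the eigenvalues of the Frobenius element of this **one** point on the `ℓ`-adic homology of `X` and
their conjugates generate a group of rank at most `r` modulo the group of the numbers with a power
in `E` (for `r = 0`: they have powers in `E`).

**For every `b` statement (a) of Q1 is true for `A × X` in dimension `b` (the map from
`CH_b(A × X) ⊗ ℚ_ℓ` to the space of the invariants of the Galois group of `k` in `H_(2 b)(b)` is
onto) if and only if it is true for `X` in all the dimensions `b - l`, `0 ≤ l ≤ dim A`. The same
holds for statement (b)** (`B_b` is finitely generated, and `B_b ⊗ ℚ_ℓ` is isomorphic to the space
of the Galois invariants). No resolution of singularities, no good proper cover and no case of the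
conjectures is assumed.

The theorems of Jannsen which are known reduce the statements for `X` to statements for smooth
projective varieties, the products `X'' × X''` among them, and need good proper covers in
characteristic `p`. Here both sides of the equivalence are about singular and open varieties, and
the products `A × X` are reduced to `X`.

What is used of `A` are known theorems (`IsAbelian`): `H(A)` is generated by `H^1`, Frobenius is
diagonalizable on `H^1` (Weil), the theorem of Tate on divisors, and the nilpotence of
homologically trivial correspondences (Kimura). The `ℓ`-adic homology `R` of `X` and `A × X` over
an algebraic closure of `k` is modelled by `RelData`, with the formal properties in `IsRel`:
degrees, products with classes on `A`, push-forward to `X`, the projection formula, the operation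
of the correspondences of `A`. The group of bidegree `(i, j)` of `X` is `H_(-i)(X, -j)`, and the
group of bidegree `(i, j)` of `A × X` is `H_(2 d - i)(A × X, d - j)`, `d = dim A`. `frobN` and
`frobM` are the operations of the Frobenius element on `H(X)`, and `InvN`, `InvM` are the elements
on which the Frobenius element acts through the Tate twist. `L` is the coefficient field.
`IsClassData` collects the properties of the classes of cycles (as subgroups of the homology with
coefficients in `ℚ_ℓ`; the torsion in the homology with coefficients in `ℤ_ℓ` is finite) and of the
Galois invariants: products with classes on `A` and push-forwards of classes of cycles (up to a
common denominator) are classes of cycles, the same for Galois invariants, as the classes on `A`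
are defined over the finite field.

The proof: by a sieve (helper521), which only uses the primes that split completely in the Galois
closure of `E` - these have positive density by the theorem of Chebotarev, formalized by helper401
- almost all families are such that each pair `α`, `q / α` of roots can be exchanged by a Galois
automorphism which fixes all the other roots of all the `f i` and also all elements of `E`. It
follows that, on the generalized eigenspace of Frobenius for the power of `Q` in question in the
cohomology or homology of the product of `A` with the other factor, the correspondence on `A` given
by the sum of the products of dual classes of products of divisors acts as the identity: the
Frobenius endomorphism of `A` satisfies there a power of the polynomial reciprocal to that of the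
Frobenius on the other factor, this polynomial is prime to the one whose value on `H(A)` lies in
the part generated by divisors, and the difference of the two correspondences is nilpotent. So the
Galois invariants of `A × X`, and the classes of cycles (up to a common denominator), are the
direct sums of the products of finitely many products of divisors on `A` with those of `X`.
-/

set_option autoImplicit false

namespace Pool.Agent.Results.MP_4776b1_ag.AlmostAllTimesAny

open Pool.Agent.Y156.L Pool.Agent.Q64.L Pool.Agent.Q64.M

/-- **The Tate conjectures (a) and (b) hold for `A × X` if and only if they hold for `X`, for
almost all abelian varieties `A` and all varieties over finitely generated fields of small
Frobenius rank.** -/
theorem result {I : Type} [Fintype I] (g : I → ℕ) (r : ℕ) (hr : ∀ i, r < g i)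
    (E : IntermediateField ℚ ℂ) [FiniteDimensional ℚ E] :
    AlmostAll g fun q F => SingularTateReduces (RootsRank E r) q F :=
  countA g r hr E (fun q F => SingularTateReduces (RootsRank E r) q F)
    fun _ _ hq hG => singularTateReduces hq hG

end Pool.Agent.Results.MP_4776b1_ag.AlmostAllTimesAny
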